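import Pool.Agent.Helper25_AEU.Stmt

/-!
Squad AEU, Part II: modules ALT and EVN.
-/

namespace Pool.Agent.AEU.H51

open MeasureTheory Complex Filter Topology Pool.Agent.H62T Pool.Agent.AEU
open Pool.Agent.H16F (Sublin)

lemma ip_add (a x y : ℂ) : ip a (x + y) = ip a x + ip a y := by
  simp only [ip, Complex.add_re, Complex.add_im]; ring

lemma ip_rmul (a x : ℂ) (r : ℝ) : ip a ((r : ℂ) * x) = r * ip a x := by
  simp only [ip, Complex.mul_re, Complex.mul_im, Complex.ofReal_re, Complex.ofReal_im]; ring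

lemma ip_self (a : ℂ) (h : ‖a‖ = 1) : ip a a = 1 := by
  have h1 : ‖a‖ ^ 2 = a.re ^ 2 + a.im ^ 2 := by
    rw [Complex.sq_norm, Complex.normSq_apply]; ring
  rw [h] at h1
  simp only [ip]; nlinarith

lemma ip_sq_dt (a b : ℂ) (ha : ‖a‖ = 1) (hb : ‖b‖ = 1) : ip a b ^ 2 + dt a b ^ 2 = 1 := by
  have h1 := ip_self a ha
  have h2 := ip_self b hb
  simp only [ip, dt] at *
  have : (a.re * b.re + a.im * b.im) ^ 2 + (a.re * b.im - a.im * b.re) ^ 2
      = (a.re * a.re + a.im * a.im) * (b.re * b.re + b.im * b.im) := by ring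
  rw [this, h1, h2]; ring

lemma dt_ne {a b : ℂ} (ha : ‖a‖ = 1) (hb : ‖b‖ = 1) (h : |ip a b| < 1) : dt a b ≠ 0 := by
  intro h0
  have h1 := ip_sq_dt a b ha hb
  rw [h0] at h1
  have h2 : ip a b ^ 2 < 1 := by
    have := abs_nonneg (ip a b)
    rw [← sq_abs]; nlinarith only [this, h]
  linarith only [h1, h2]

lemma vx_re (s t : HP) : (vx s t).re = -(t.2 * s.1.im - s.2 * t.1.im) / dt s.1 t.1 := by
  unfold vx
  rw [Complex.div_ofReal_re]
  congr 1
  simp

lemma vx_im (s t : HP) : (vx s t).im = (t.2 * s.1.re - s.2 * t.1.re) / dt s.1 t.1 := by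
  unfold vx
  rw [Complex.div_ofReal_im]
  congr 1
  simp

lemma ip_vx₁ {s t : HP} (h : dt s.1 t.1 ≠ 0) : ip s.1 (vx s t) = s.2 := by
  simp only [ip]
  rw [vx_re, vx_im]
  have h' := h
  unfold dt at h' ⊢
  field_simp
  ring

lemma ip_vx₂ {s t : HP} (h : dt s.1 t.1 ≠ 0) : ip t.1 (vx s t) = t.2 := by
  simp only [ip]
  rw [vx_re, vx_im]
  have e : t.1.re * (-(t.2 * s.1.im - s.2 * t.1.im) / dt s.1 t.1)
      + t.1.im * ((t.2 * s.1.re - s.2 * t.1.re) / dt s.1 t.1)
      = (t.2 * (s.1.re * t.1.im - s.1.im * t.1.re)) / dt s.1 t.1 := by ring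
  rw [e]
  exact mul_div_cancel_right₀ _ h

/-- positive dependence of the normals of an acute triple -/
lemma acute_dep {a b c : ℂ} (ha : ‖a‖ = 1) (hb : ‖b‖ = 1) (hc : ‖c‖ = 1) (hab : ip a b < 0)
    (hac : ip a c < 0) (hbc : ip b c < 0) :
    ∃ α β γ : ℝ, 0 < α ∧ 0 < β ∧ 0 < γ ∧ ∀ x, α * ip a x + β * ip b x + γ * ip c x = 0 := by
  have key : ∀ x, dt b c * ip a x + dt c a * ip b x + dt a b * ip c x = 0 := by
    intro x; simp only [ip, dt]; ring
  -- the three determinants have the same sign
  have k1 := key a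
  have k2 := key b
  have k3 := key c
  rw [ip_self a ha] at k1
  rw [ip_self b hb] at k2
  rw [ip_self c hc] at k3
  have e1 : ip b a = ip a b := by simp only [ip]; ring
  have e2 : ip c a = ip a c := by simp only [ip]; ring
  have e3 : ip c b = ip b c := by simp only [ip]; ring
  rw [e1, e2] at k1
  rw [e3] at k2
  have s1 := ip_sq_dt a b ha hb
  have s2 := ip_sq_dt b c hb hc
  have s3 := ip_sq_dt c a hc ha
  rw [e2] at s3
  -- sign analysis
  have pos : (0 < dt b c ∧ 0 < dt c a ∧ 0 < dt a b) ∨ (dt b c < 0 ∧ dt c a < 0 ∧ dt a b < 0) := by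
    rcases lt_trichotomy (dt a b) 0 with h | h | h
    · right
      by_contra hcon
      by_cases h1 : 0 ≤ dt b c
      · -- then dt c a > 0 by k1? signs
        have h2 : 0 < dt c a := by
          by_contra h2
          have := not_lt.1 h2
          linarith only [k1, h1, mul_pos_of_neg_of_neg h hac, mul_nonneg_of_nonpos_of_nonpos this hab.le]
        linarith only [k3, h, mul_nonpos_of_nonneg_of_nonpos h1 hac.le, mul_neg_of_pos_of_neg h2 hbc]
      · have h1' := not_le.1 h1
        have h2 : 0 ≤ dt c a := by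
          by_contra h2
          exact hcon ⟨h1', not_le.1 h2, h⟩
        linarith only [k2, h2, mul_pos_of_neg_of_neg h1' hab, mul_pos_of_neg_of_neg h hbc]
    · exfalso
      rw [h] at k1 k2 k3 s1
      have h4 : ip a b = -1 := by nlinarith only [s1, hab]
      rw [h4] at k1
      have h5 : dt c a = dt b c := by linarith
      rw [h5] at k3
      have h6 : dt b c = 0 := by
        have : dt b c * (ip a c + ip b c) = 0 := by linarith
        rcases mul_eq_zero.1 this with h7 | h7
        · exact h7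
        · linarith
      rw [h5, h6] at s3
      rw [h6] at s2
      have h7 : ip b c = -1 := by nlinarith only [s2, hbc]
      have h8 : ip a c = -1 := by nlinarith only [s3, hac]
      -- a = -b, c = -b, a = -c
      have n1 := ip_self a ha
      have n2 := ip_self b hb
      have n3 := ip_self c hc
      simp only [ip] at h4 h7 h8 n1 n2 n3
      have z1 : a.re + b.re = 0 := by
        nlinarith only [sq_nonneg (a.re + b.re), sq_nonneg (a.im + b.im), h4, n1, n2]
      have z2 : a.im + b.im = 0 := by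
        nlinarith only [sq_nonneg (a.re + b.re), sq_nonneg (a.im + b.im), h4, n1, n2]
      have z3 : b.re + c.re = 0 := by
        nlinarith only [sq_nonneg (b.re + c.re), sq_nonneg (b.im + c.im), h7, n2, n3]
      have z4 : b.im + c.im = 0 := by
        nlinarith only [sq_nonneg (b.re + c.re), sq_nonneg (b.im + c.im), h7, n2, n3]
      have y1 : c.re = a.re := by linarith
      have y2 : c.im = a.im := by linarith
      rw [y1, y2] at h8
      linarith
    · left
      by_contra hcon
      by_cases h1 : dt b c ≤ 0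
      · have h2 : dt c a < 0 := by
          by_contra h2
          have := not_lt.1 h2
          linarith only [k1, h1, mul_neg_of_pos_of_neg h hac, mul_nonpos_of_nonneg_of_nonpos this hab.le]
        linarith only [k3, h, mul_nonneg_of_nonpos_of_nonpos h1 hac.le, mul_pos_of_neg_of_neg h2 hbc]
      · have h1' := not_le.1 h1
        have h2 : dt c a ≤ 0 := by
          by_contra h2
          exact hcon ⟨h1', not_le.1 h2, h⟩
        linarith only [k2, h2, mul_neg_of_pos_of_neg h1' hab, mul_neg_of_pos_of_neg h hbc]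
  rcases pos with ⟨p1, p2, p3⟩ | ⟨p1, p2, p3⟩
  · exact ⟨_, _, _, p1, p2, p3, key⟩
  · refine ⟨-dt b c, -dt c a, -dt a b, by linarith, by linarith, by linarith, fun x => ?_⟩
    have := key x
    linarith

/-- EVN -/
theorem evn (hLam : LamStatement) : EvnStatement := by
  intro P S L δ hS hfit h hh hl
  constructor
  · rintro ⟨σ, x, h0, h1, _, ht⟩
    refine ⟨σ, x, h0, h1, fun s hs => ?_⟩
    rw [← ht] at hs
    exact (Finset.mem_filter.1 hs).2
  · rintro ⟨σ, x, h0, h1, heq⟩
    have hsub : Sublin (fun w => σ * h w + ip w x) := by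
      refine ⟨fun a b => ?_, fun c a hc => ?_⟩
      · have := hh.1 a b
        have e : ip (a + b) x = ip a x + ip b x := by simp only [ip, Complex.add_re, Complex.add_im]; ring
        simp only [e]
        nlinarith
      · have e : ip ((c : ℂ) * a) x = c * ip a x := by
          simp only [ip, Complex.mul_re, Complex.mul_im, Complex.ofReal_re, Complex.ofReal_im]; ring
        simp only [e, hh.2 c a hc]
        ring
    have hlam : lam (fun w => σ * h w + ip w x) < L + δ := by
      have e := hLam.1 h h hh hh σ 0 x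
      simp only [zero_mul, add_zero] at e
      rw [e]
      have := hLam.2.2.1 h hh
      nlinarith
    have := hfit _ hsub (fun s hs => heq s hs) hlam
    exact ⟨σ, x, h0, h1, this.1, this.2⟩

/-- ALT -/
theorem alt (hExi : ExiStatement) (hVer : VerStatement) (hHul : HulStatement)
    (hPer : PerStatement) : AltStatement := by
  intro P hP S L hSP hS3 hA hex hcard i j q hS
  have hi : i ∈ S := by rw [hS]; simp
  have hj : j ∈ S := by rw [hS]; simp
  have hq : q ∈ S := by rw [hS]; simp
  have hij : i ≠ j := by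
    rintro rfl
    rw [hS] at hS3
    have : ({i, i, q} : Finset HP).card ≤ 2 := by
      rw [Finset.insert_eq_of_mem (by simp)]
      exact Finset.card_le_two
    omega
  have hiq : i ≠ q := by
    rintro rfl
    rw [hS] at hS3
    have : ({i, j, i} : Finset HP).card ≤ 2 := by
      rw [Finset.insert_eq_of_mem (by simp)]
      exact Finset.card_le_two
    omega
  have hjq : j ≠ q := by
    rintro rfl
    rw [hS] at hS3
    have : ({i, j, j} : Finset HP).card ≤ 2 := by
      rw [Finset.insert_eq_of_mem (a := j) (by simp)]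
      exact Finset.card_le_two
    omega
  have ui := hP.pg.unit i (hSP hi)
  have uj := hP.pg.unit j (hSP hj)
  have uq := hP.pg.unit q (hSP hq)
  have aij := hA i hi j hj hij
  have aiq := hA i hi q hq hiq
  have ajq := hA j hj q hq hjq
  have hd := dt_ne ui uj (hP.g1.lt1 i (hSP hi) j (hSP hj) hij)
  set v := vx i j with hv
  have v1 : ip i.1 v = i.2 := ip_vx₁ hd
  have v2 : ip j.1 v = j.2 := ip_vx₂ hd
  obtain ⟨α, β, γ, hα, hβ, hγ, hdep⟩ := acute_dep ui uj uq aij aiq ajq
  obtain ⟨x, hx1, hx2⟩ := hP.pg.side i (hSP hi)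
  have x2 := hx2 j (hSP hj) hij.symm
  have x3 := hx2 q (hSP hq) hiq.symm
  have pos : 0 < q.2 - ip q.1 v := by
    have e1 := hdep v
    have e2 := hdep x
    rw [v1, v2] at e1
    rw [hx1] at e2
    have e3 : γ * (q.2 - ip q.1 v) = β * (j.2 - ip j.1 x) + γ * (q.2 - ip q.1 x) := by
      linear_combination e2 - e1
    have e4 : 0 < β * (j.2 - ip j.1 x) + γ * (q.2 - ip q.1 x) :=
      add_pos (mul_pos hβ (by linarith)) (mul_pos hγ (by linarith))
    rw [← e3] at e4
    exact (mul_pos_iff_of_pos_left hγ).1 e4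
  refine ⟨pos, fun hle => ?_⟩
  set a := q.2 - ip q.1 v with ha
  set f := v + (a : ℂ) * q.1 with hf'
  have f1 : ip i.1 f < i.2 := by
    rw [hf', ip_add, ip_rmul, v1]; nlinarith
  have f2 : ip j.1 f < j.2 := by
    rw [hf', ip_add, ip_rmul, v2]; nlinarith
  have f3 : ip q.1 f = q.2 := by
    rw [hf', ip_add, ip_rmul, ip_self _ uq, ha]; ring
  have H := hHul 1 ![v, f]
  have val : ∀ w, hf ![v, f] w = max (ip w v) (ip w f) := by
    intro w
    apply le_antisymm
    · refine (H.2.2.2.2.1 w _).2 fun k => ?_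
      fin_cases k
      · exact le_max_left _ _
      · exact le_max_right _ _
    · exact max_le (H.2.1 0 w) (H.2.1 1 w)
  obtain ⟨δ, hδ, hE⟩ := hExi P hP S L hSP hS3 hex hcard
  have hlam : lam (hf ![v, f]) = 2 * a := by
    rw [hPer.1 v f]
    have : v - f = -((a : ℂ) * q.1) := by rw [hf']; ring
    rw [this, norm_neg, norm_mul, Complex.norm_real, uq, Real.norm_of_nonneg pos.le, mul_one]
  have htch : ∀ s ∈ S, hf ![v, f] s.1 = s.2 := by
    intro s hs
    rw [hS] at hs
    simp only [Finset.mem_insert, Finset.mem_singleton] at hs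
    rcases hs with rfl | rfl | rfl
    · rw [val, v1]; exact max_eq_left f1.le
    · rw [val, v2]; exact max_eq_left f2.le
    · rw [val, f3]; exact max_eq_right (by linarith)
  obtain ⟨hfit, ht⟩ := hE _ H.1 htch (by rw [hlam]; linarith)
  have V := hVer P hP.pg hP.g1
  have vCl : v ∈ Cl P := V.2.2.2.2.2.2.1 _ hfit v (H.2.1 0)
  have fCl : f ∈ Cl P := V.2.2.2.2.2.2.1 _ hfit f (H.2.1 1)
  refine ⟨_, ⟨⟨vCl, hSP hi, hSP hj, hij, v1, v2⟩, hSP hq, pos, f3, ?_, rfl⟩⟩
  intro s hs hsq
  refine lt_of_le_of_ne (fCl s hs) fun heq => ?_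
  have hle' : hf ![v, f] s.1 = s.2 := by
    refine le_antisymm (hfit s hs) ?_
    rw [val, ← heq]
    exact le_max_right _ _
  have hst : s ∈ touch P (hf ![v, f]) := Finset.mem_filter.2 ⟨hs, hle'⟩
  rw [ht, hS] at hst
  simp only [Finset.mem_insert, Finset.mem_singleton] at hst
  rcases hst with rfl | rfl | rfl
  · exact f1.ne heq
  · exact f2.ne heq
  · exact hsq rfl

end Pool.Agent.AEU.H51
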